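import Pool.Agent.Y743.NC.Cov

/-!
# The normalised gaps between the zeta zeros are negatively correlated

Assume the Riemann hypothesis.  Put `c_n = δ_n - 1` and `C_N(d) = ∑_{n ≤ N} c_n c_{n+d}`.

* The variance of the normalised distance of a zero to its `r`-th neighbour is
  `O((1 + log r)²)`: `∑_{n ≤ N} (δ_n + … + δ_{n+r-1} - r)² ≤ C (1 + log r)² N` for `N ≥ N(r)`.
* Sum rule: `|C_N(0) + 2 ∑_{1 ≤ d < r} (1 - d/r) C_N(d)| ≤ C (1 + log r)²/r N` for `N ≥ N(r)`,
  while `C_N(0) ≥ c N`.
* There are `r` and `c > 0` such that for all large `N` there is `1 ≤ d < r` with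
  `C_N(d) ≤ - c N`.

So the covariances of the gaps sum up, in the sense of Cesàro, to minus one half of the variance, as
for the sine process, and no limit law of the normalised gaps is that of a sequence of independent,
or pairwise uncorrelated, or positively correlated random variables.

Idea of the proof.  If the normalised distance of a zero to its `r`-th neighbour differs from `r` by
more than `H`, then many windows of length `r ± H/2` mean spacings close to that zero contain a
number of zeros which differs from the expected one by `≫ H`, and the windows are counted by the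
number variance, which is `O(log (r + H))`; the third moments of the gaps deal with `H > r³`.  The
lower bound of the variance of the gaps follows since the unfolded zeros are not close to a lattice.
-/

set_option autoImplicit false

open Filter

namespace Pool.Agent.Results.MP_21f43f_nt.GapsNegativelyCorrelated

/-- multiplicity of `s` as a zero of the Riemann zeta function (order of vanishing at `s`) -/
noncomputable def zmult (s : ℂ) : ℕ := analyticOrderNatAt riemannZeta s

/-- the number of nontrivial zeros of `ζ` with ordinate in `(0, t]`, with multiplicity -/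
noncomputable def NZ (t : ℝ) : ℕ :=
  ∑ᶠ s ∈ {s : ℂ | riemannZeta s = 0 ∧ 0 < s.re ∧ s.re < 1 ∧ 0 < s.im ∧ s.im ≤ t}, zmult s

/-- for `n ≥ 1`: the `n`-th positive ordinate `γ n` of a nontrivial zero of `ζ`, the ordinates being
listed in nondecreasing order and repeated according to multiplicity -/
noncomputable def γ (n : ℕ) : ℝ := sInf {t : ℝ | n ≤ NZ t}

/-- the normalised ordinates `γ_n log γ_n / 2π` -/
noncomputable def γt (n : ℕ) : ℝ := γ n * Real.log (γ n) / (2 * Real.pi)

/-- the normalised gaps -/
noncomputable def δ (n : ℕ) : ℝ := γt (n + 1) - γt n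

/-- the covariance sums `C_N(d) = ∑_{n ≤ N} (δ_n - 1) (δ_{n+d} - 1)` of the normalised gaps -/
noncomputable def Cov (N d : ℕ) : ℝ := ∑ n ∈ Finset.Icc 1 N, (δ n - 1) * (δ (n + d) - 1)

/-- **Theorem.** On the Riemann hypothesis the normalised distance of a zero to its `r`-th
neighbour has variance `O((1 + log r)²)`, the covariances of the normalised gaps satisfy the sum
rule, and the gaps are negatively correlated at some bounded distance. -/
theorem result (RH : RiemannHypothesis) : ∃ C c : ℝ, 0 < C ∧ 0 < c ∧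
    (∀ r : ℕ, 1 ≤ r → ∀ᶠ N : ℕ in atTop,
      ∑ n ∈ Finset.Icc 1 N, (∑ j ∈ Finset.range r, δ (n + j) - r) ^ 2 ≤
        C * (1 + Real.log r) ^ 2 * N) ∧
    (∀ r : ℕ, 1 ≤ r → ∀ᶠ N : ℕ in atTop,
      |Cov N 0 + 2 * ∑ d ∈ Finset.Ico 1 r, (1 - (d : ℝ) / r) * Cov N d| ≤
        C * (1 + Real.log r) ^ 2 / r * N) ∧
    (∀ᶠ N : ℕ in atTop, c * N ≤ Cov N 0 ∧ Cov N 0 ≤ C * N) ∧
    ∃ r : ℕ, ∀ᶠ N : ℕ in atTop, ∃ d : ℕ, 1 ≤ d ∧ d < r ∧ Cov N d ≤ -(c * N) := by
  have e : ∀ n, LG.dlt n = δ n := by
    intro n
    unfold LG.dlt δ γt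
    have e1 : SG.ord = γ := rfl
    rw [e1]
    ring
  have e0 : LG.dlt = δ := funext e
  have eC : ∀ d N, Pool.Agent.Y743.NC.Cov (fun n => LG.dlt n - 1) d N = Cov N d := by
    intro d N
    unfold Pool.Agent.Y743.NC.Cov Cov
    rw [e0]
  obtain ⟨C, hC, h1⟩ := Pool.Agent.Y743.NC.sumrule (H177.Lat.rhs_of RH)
  obtain ⟨c1, hc1, h2⟩ := Pool.Agent.Y743.NC.var_low RH
  obtain ⟨r, hr, c2, hc2, h3⟩ := Pool.Agent.Y743.NC.negative RH
  simp only [eC] at h1 h2 h3
  refine ⟨C, min c1 c2, by linarith, lt_min hc1 hc2, fun r hr => ?_, fun r hr => ?_, ?_, r, ?_⟩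
  · filter_upwards [h1 r hr] with N h
    have h4 := h.1
    rw [e0] at h4
    convert h4 using 2 with n _
    rw [Finset.sum_sub_distrib, Finset.sum_const, Finset.card_range, nsmul_eq_mul, mul_one]
  · filter_upwards [h1 r hr] with N h
    exact h.2
  · filter_upwards [h2, h1 1 le_rfl] with N h4 h5
    have hN : (0 : ℝ) ≤ N := Nat.cast_nonneg N
    constructor
    · exact (mul_le_mul_of_nonneg_right (min_le_left _ _) hN).trans h4
    · have h6 := (abs_le.mp h5.2).2
      simpa using h6
  · filter_upwards [h3] with N h4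
    obtain ⟨d, a1, a2, a3⟩ := h4
    have hN : (0 : ℝ) ≤ N := Nat.cast_nonneg N
    have : min c1 c2 * N ≤ c2 * N := mul_le_mul_of_nonneg_right (min_le_right _ _) hN
    exact ⟨d, a1, a2, by linarith⟩

end Pool.Agent.Results.MP_21f43f_nt.GapsNegativelyCorrelated
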