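import Pool.Agent.Y747.Ld

namespace Pool.Agent.Results.MP_21f43f_nt.LargeDeviations

/-- multiplicity of `s` as a zero of the Riemann zeta function (order of vanishing at `s`) -/
noncomputable def zmult (s : ℂ) : ℕ := analyticOrderNatAt riemannZeta s

/-- the number of nontrivial zeros of `ζ` with ordinate in `(0, t]`, with multiplicity -/
noncomputable def NZ (t : ℝ) : ℕ :=
  ∑ᶠ s ∈ {s : ℂ | riemannZeta s = 0 ∧ 0 < s.re ∧ s.re < 1 ∧ 0 < s.im ∧ s.im ≤ t}, zmult s

/-- for `n ≥ 1`: the `n`-th positive ordinate `γ n` of a nontrivial zero of `ζ`, the ordinates being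
listed in nondecreasing order and repeated according to multiplicity -/
noncomputable def γ (n : ℕ) : ℝ := sInf {t : ℝ | n ≤ NZ t}

/-- the normalised ordinate `γ_n log γ_n / 2π` -/
noncomputable def γt (n : ℕ) : ℝ := γ n * Real.log (γ n) / (2 * Real.pi)

/-- the normalised gap `δ_n` between the `n`-th and the `(n+1)`-st zero -/
noncomputable def δ (n : ℕ) : ℝ := γt (n + 1) - γt n

/-- the exceptional indices: `n` such that for some `j ≥ 1` with `|j - n| ≥ m` the normalised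
ordinates of the `j`-th and the `n`-th zero do not differ by `j - n` up to `ε |j - n|` -/
def Exc (ε : ℝ) (m N : ℕ) : Set ℕ :=
  {n : ℕ | 1 ≤ n ∧ n ≤ N ∧ ∃ j : ℕ, 1 ≤ j ∧ (m : ℝ) ≤ |(j : ℝ) - n| ∧
    ε * |(j : ℝ) - n| ≤ |γt j - γt n - ((j : ℝ) - n)|}

lemma sum_δ (n k : ℕ) : ∑ i ∈ Finset.range k, δ (n + i) = γt (n + k) - γt n := by
  induction k with
  | zero => simp
  | succ k ih =>
    rw [Finset.sum_range_succ, ih]
    unfold δ
    rw [show n + (k + 1) = n + k + 1 by ring]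
    ring

/-- On the Riemann hypothesis, for every `ε > 0` there are `c > 0` and `m₀` such that for all
`N ≥ 1` and all `m ≥ m₀`:
(1) all but at most `N exp(-c m log m)` of the `n ≤ N` satisfy
`|γt_j - γt_n - (j - n)| < ε |j - n|` for all `j ≥ 1` with `|j - n| ≥ m`;
(2) if `N < exp(c m log m)` there is no exception at all;
(3) in particular all but at most `N exp(-c m log m)` of the `n ≤ N` satisfy
`|(δ_n + ... + δ_{n+k-1}) - k| < ε k` for all `k ≥ m`. -/
theorem result (RH : RiemannHypothesis) (ε : ℝ) (hε : 0 < ε) :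
    ∃ c : ℝ, 0 < c ∧ ∃ m₀ : ℕ, 1 ≤ m₀ ∧ ∀ N : ℕ, 1 ≤ N → ∀ m : ℕ, m₀ ≤ m →
      ((Exc ε m N).ncard : ℝ) ≤ N * Real.exp (-c * m * Real.log m) ∧
      ((N : ℝ) < Real.exp (c * m * Real.log m) → Exc ε m N = ∅) ∧
      ({n : ℕ | 1 ≤ n ∧ n ≤ N ∧ ∃ k : ℕ, m ≤ k ∧
        ε * k ≤ |∑ i ∈ Finset.range k, δ (n + i) - k|}.ncard : ℝ) ≤
        N * Real.exp (-c * m * Real.log m) := by
  obtain ⟨c, hc, m₀, hm₀, h⟩ := Pool.Agent.Y747.Ld.full RH ε hε
  refine ⟨c, hc, m₀, hm₀, fun N hN m hm => ?_⟩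
  have h1 : ((Exc ε m N).ncard : ℝ) ≤ N * Real.exp (-c * m * Real.log m) := h N hN m hm
  have hfin : (Exc ε m N).Finite := (Set.finite_Icc 1 N).subset fun n hn => ⟨hn.1, hn.2.1⟩
  refine ⟨h1, fun h2 => ?_, le_trans ?_ h1⟩
  · have h3 : ((Exc ε m N).ncard : ℝ) < 1 := by
      refine lt_of_le_of_lt h1 ?_
      have h4 : (N : ℝ) * Real.exp (-c * m * Real.log m) <
          Real.exp (c * m * Real.log m) * Real.exp (-c * m * Real.log m) :=
        mul_lt_mul_of_pos_right h2 (Real.exp_pos _)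
      rw [← Real.exp_add] at h4
      rw [show c * (m : ℝ) * Real.log m + -c * m * Real.log m = 0 by ring, Real.exp_zero] at h4
      exact h4
    have h5 : (Exc ε m N).ncard < 1 := by exact_mod_cast h3
    exact (Set.ncard_eq_zero hfin).1 (by omega)
  · have hsub : {n : ℕ | 1 ≤ n ∧ n ≤ N ∧ ∃ k : ℕ, m ≤ k ∧
        ε * k ≤ |∑ i ∈ Finset.range k, δ (n + i) - k|} ⊆ Exc ε m N := by
      rintro n ⟨a1, a2, k, a3, a4⟩
      refine ⟨a1, a2, n + k, by omega, ?_, ?_⟩
      · have e : ((n + k : ℕ) : ℝ) - n = k := by push_cast; ring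
        rw [e, abs_of_nonneg (Nat.cast_nonneg k)]
        exact_mod_cast a3
      · have e : ((n + k : ℕ) : ℝ) - n = k := by push_cast; ring
        rw [e, abs_of_nonneg (Nat.cast_nonneg k)]
        rw [sum_δ] at a4
        exact a4
    exact_mod_cast Set.ncard_le_ncard hsub hfin

end Pool.Agent.Results.MP_21f43f_nt.LargeDeviations
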