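import Pool.Agent.Y743.CL.Fc

/-!
# A central limit theorem for the `r`-th neighbour spacings of the zeta zeros

Unconditionally: let `γ_1 ≤ γ_2 ≤ …` be the positive ordinates of the nontrivial zeros of `ζ`, with
multiplicity, and `γ̃_n = γ_n log γ_n / 2π`.  As `r → ∞` the law of

  `(γ̃_{n+r} - γ̃_n - r) / (√(log r) / π)`,  `n ≤ N`,

tends to the standard normal law, uniformly in `N` as long as `r log r ≤ log N`: the gaps behave as
those of the sine process, whose `r`-th neighbour spacing has variance `(log r)/π²`.

Idea of the proof.  The number of zeros in a window of `a` mean spacings at height `t` is `a` plus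
the imaginary part of a sum over primes `p ≤ T^{1/4a}` up to an error bounded in mean square; the
moments of the sum over primes are those of a Gaussian of variance `(log a)/π²`.  A zero whose `r`-th
neighbour spacing is at most `r + x √(log r)/π` gives rise to windows close to that zero with at
least about `r` zeros in a length of `r + x √(log r)/π + M` mean spacings, where `M` is a large
constant, up to the fluctuation of the number of zeros in windows of `M` mean spacings, whose
variance is `O(log M) = o(M²)`; this passes from averages over `t` to averages over the zeros.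
-/

set_option autoImplicit false

namespace Pool.Agent.Results.MP_21f43f_nt.RthNeighbourCLT

/-- multiplicity of `s` as a zero of the Riemann zeta function (order of vanishing at `s`) -/
noncomputable def zmult (s : ℂ) : ℕ := analyticOrderNatAt riemannZeta s

/-- the number of nontrivial zeros of `ζ` with ordinate in `(0, t]`, with multiplicity -/
noncomputable def NZ (t : ℝ) : ℕ :=
  ∑ᶠ s ∈ {s : ℂ | riemannZeta s = 0 ∧ 0 < s.re ∧ s.re < 1 ∧ 0 < s.im ∧ s.im ≤ t}, zmult s

/-- for `n ≥ 1`: the `n`-th positive ordinate `γ n` of a nontrivial zero of `ζ`, the ordinates being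
listed in nondecreasing order and repeated according to multiplicity -/
noncomputable def γ (n : ℕ) : ℝ := sInf {t : ℝ | n ≤ NZ t}

/-- the normalised ordinates `γ_n log γ_n / 2π` -/
noncomputable def γt (n : ℕ) : ℝ := γ n * Real.log (γ n) / (2 * Real.pi)

/-- the normalised gaps -/
noncomputable def δ (n : ℕ) : ℝ := γt (n + 1) - γt n

/-- the proportion of the `n ≤ N` for which the sum of the `r` consecutive normalised gaps
`δ_n + … + δ_{n+r-1}`, the normalised distance of the `n`-th zero to its `r`-th neighbour, is at most
`r + x √(log r) / π` -/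
noncomputable def F (N r : ℕ) (x : ℝ) : ℝ :=
  ({n : ℕ | 1 ≤ n ∧ n ≤ N ∧ ∑ j ∈ Finset.range r, δ (n + j) ≤
    r + x * (Real.sqrt (Real.log r) / Real.pi)}.ncard : ℝ) / N

/-- the distribution function of the standard normal law -/
noncomputable def Φ (x : ℝ) : ℝ := (ProbabilityTheory.gaussianReal 0 1).real (Set.Iic x)

/-- **Theorem.** The `r`-th neighbour spacings of the zeta zeros, minus `r` and divided by
`√(log r) / π`, are asymptotically standard normal as `r → ∞`, uniformly in the number
`N ≥ r ^ r` of zeros considered. -/
theorem result (ε : ℝ) (hε : 0 < ε) : ∃ R : ℕ, ∀ r : ℕ, R ≤ r → ∀ N : ℕ,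
    r * Real.log r ≤ Real.log N → ∀ x : ℝ, |F N r x - Φ x| ≤ ε := by
  obtain ⟨R, hR⟩ := Pool.Agent.Y743.CL.clt ε hε
  refine ⟨R, fun r hr N hN x => ?_⟩
  have h := hR r hr N hN x
  have e1 : SG.ord = γ := rfl
  have tel : ∀ n, ∑ j ∈ Finset.range r, δ (n + j) = γt (n + r) - γt n := by
    intro n
    have := Finset.sum_range_sub (fun j => γt (n + j)) r
    simpa [δ, add_assoc] using this
  have e2 : F N r x = Pool.Agent.Y743.CL.Fr N r x := by
    unfold F Pool.Agent.Y743.CL.Fr
    rw [← Set.ncard_coe_finset]
    congr 3
    ext n
    simp only [Set.mem_ofPred_eq, Finset.coe_filter, Finset.mem_Icc, tel]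
    unfold Pool.Agent.Y743.CL.Ev Pool.Agent.Y743.CL.lm γt
    rw [e1]
    tauto
  rw [e2]
  exact h

end Pool.Agent.Results.MP_21f43f_nt.RthNeighbourCLT
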