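import Pool.Agent.Y748.SR.Fin2
import Pool.Agent.Y748.SR.Top4
import Pool.Agent.Y747.Ld
import Pool.Agent.Y971.SR.Low
import Pool.Agent.Y51.SR4.Allb

/-!
# The GUE hypothesis holds if and only if all limit points of the zeros are strongly Rayleigh

`corr k N a b` is the mean over `0 ≤ x ≤ N` of the number of the `k`-tuples of zeros with distinct
indices whose normalised ordinates minus `x` lie in the box `(a_1, b_1] × … × (a_k, b_k]`; for
disjoint intervals this is the mean of the product of the numbers of zeros in the intervals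
`x + (a_i, b_i]`.  A limit point of the zeros is a functional `m` such that
`corr k (N j) a b → m k a b` for all families of disjoint intervals, along some `N j → ∞`; every
sequence of heights has a subsequence with a limit point.  No regularity of the limit is assumed.

A point process is strongly Rayleigh (Borcea, Brändén, Liggett; Ghosh, Liggett, Pemantle) if for all
disjoint intervals `A_1, …, A_n` with numbers of points `X_1, …, X_n` the polynomial
`E ∏ (1 + z_i X_i)`, truncated to its multi-affine part `∑_S E(∏_{i ∈ S} X_i) z^S`, has no zeros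
with all `z_i` in the upper half-plane.  Determinantal processes with Hermitian kernels, their
independent superpositions, Poisson processes, and all limits of such processes are strongly
Rayleigh.

The theorem: on the Riemann hypothesis, the only strongly Rayleigh process that can be a limit
point of the zeros, along any heights, is the sine process, and where it occurs the normalised gaps
have the Gaudin distribution.  So the GUE hypothesis (all correlations of the zeros converge to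
those of the sine process) is equivalent to the property that all limit points of the zeros are
strongly Rayleigh, and this property implies the statement of the open problem.
-/

open Filter Topology MeasureTheory

namespace Pool.Agent.Results.MP_21f43f_nt.StronglyRayleigh

/-- multiplicity of `s` as a zero of the Riemann zeta function (order of vanishing at `s`) -/
noncomputable def zmult (s : ℂ) : ℕ := analyticOrderNatAt riemannZeta s

/-- the number of nontrivial zeros of `ζ` with ordinate in `(0, t]`, with multiplicity -/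
noncomputable def NZ (t : ℝ) : ℕ :=
  ∑ᶠ s ∈ {s : ℂ | riemannZeta s = 0 ∧ 0 < s.re ∧ s.re < 1 ∧ 0 < s.im ∧ s.im ≤ t}, zmult s

/-- for `n ≥ 1`: the `n`-th positive ordinate `γ n` of a nontrivial zero of `ζ`, the ordinates being
listed in nondecreasing order and repeated according to multiplicity -/
noncomputable def γ (n : ℕ) : ℝ := sInf {t : ℝ | n ≤ NZ t}

/-- the normalised ordinates `γ̃_n = γ_n log γ_n / 2π` -/
noncomputable def γt (n : ℕ) : ℝ := γ n * Real.log (γ n) / (2 * Real.pi)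

/-- the normalised gaps -/
noncomputable def δ (n : ℕ) : ℝ := γt (n + 1) - γt n

/-- the correlation functions `det (sin π(x_i - x_j) / π(x_i - x_j))` of the sine process -/
noncomputable def sine {k : ℕ} (x : Fin k → ℝ) : ℝ :=
  Matrix.det (Matrix.of fun i j => Real.sinc (Real.pi * (x i - x j)))

/-- the Fredholm determinant `det (1 - K_s)`, by Fredholm's series -/
noncomputable def E (s : ℝ) : ℝ :=
  ∑' k : ℕ, (-1) ^ k / (k.factorial : ℝ) *
    ∫ x : Fin k → ℝ in Set.Icc (fun _ => 0) (fun _ => s), sine x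

/-- the Gaudin density `p = E''` -/
noncomputable def p : ℝ → ℝ := deriv (deriv E)

/-- the box `(a_1, b_1] × … × (a_k, b_k]` -/
def box {k : ℕ} (a b : Fin k → ℝ) : Set (Fin k → ℝ) := Set.univ.pi fun i => Set.Ioc (a i) (b i)

/-- the mean over `0 ≤ x ≤ N` of the number of the `k`-tuples of distinct indices `n_i ≥ 1` with
`(γ̃_{n_i} - x)_i` in the box -/
noncomputable def corr (k N : ℕ) (a b : Fin k → ℝ) : ℝ :=
  (1 / N : ℝ) * ∫ x in (0 : ℝ)..N, ({n : Fin k → ℕ | Function.Injective n ∧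
    ∀ i, 1 ≤ n i ∧ γt (n i) - x ∈ Set.Ioc (a i) (b i)}.ncard : ℝ)

/-- the intervals `(a_i, b_i]` are nonempty, disjoint and in increasing order -/
def Disj {k : ℕ} (a b : Fin k → ℝ) : Prop := (∀ i, a i < b i) ∧ ∀ i j, i < j → b i ≤ a j

/-- along `l`, the means for disjoint intervals tend to `m` -/
def IsLimit {ι : Type} (l : Filter ι) (N : ι → ℕ)
    (m : ∀ k : ℕ, (Fin k → ℝ) → (Fin k → ℝ) → ℝ) : Prop :=
  ∀ (k : ℕ) (a b : Fin k → ℝ), Disj a b → Tendsto (fun j => corr k (N j) a b) l (𝓝 (m k a b))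

/-- strongly Rayleigh: for all disjoint intervals `A_1, …, A_n` the polynomial
`∑_{S ⊆ {1, …, n}} m(A_S) z^S` has no zeros with `z_1, …, z_n` in the upper half-plane -/
def SRayleigh (m : ∀ k : ℕ, (Fin k → ℝ) → (Fin k → ℝ) → ℝ) : Prop :=
  ∀ (n : ℕ) (a b : Fin n → ℝ), Disj a b → ∀ z : Fin n → ℂ, (∀ i, 0 < (z i).im) →
    ∑ S : Finset (Fin n), (m S.card (fun i => a (S.orderEmbOfFin rfl i))
      (fun i => b (S.orderEmbOfFin rfl i)) : ℂ) * ∏ i ∈ S, z i ≠ 0

/-- along `l`, all correlations tend to those of the sine process -/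
def GUE {ι : Type} (l : Filter ι) (N : ι → ℕ) : Prop :=
  ∀ (k : ℕ) (a b : Fin k → ℝ), Tendsto (fun j => corr k (N j) a b) l (𝓝 (∫ x in box a b, sine x))

/-- along `l`, the normalised gaps have the Gaudin distribution; for `l = atTop`, `N = id` this is
the statement of the open problem -/
def Gaudin {ι : Type} (l : Filter ι) (N : ι → ℕ) : Prop :=
  ∀ a b : ℝ, 0 ≤ a → a < b →
    Tendsto (fun j => ({n : ℕ | 1 ≤ n ∧ n ≤ N j ∧ a < δ n ∧ δ n ≤ b}.ncard : ℝ) / N j) l
      (𝓝 (∫ s in a..b, p s))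

lemma sum_δ (n k : ℕ) : ∑ i ∈ Finset.range k, δ (n + i) = γt (n + k) - γt n := by
  induction k with
  | zero => simp
  | succ k ih =>
    rw [Finset.sum_range_succ, ih]
    unfold δ
    rw [show n + (k + 1) = n + k + 1 by ring]
    ring

open Pool.Agent.Y748.SR in
lemma ldh (RH : RiemannHypothesis) : LDH fun n => Pool.Agent.Y748.nrm (SG.ord n) := by
  obtain ⟨c, hc, m₀, hm₀, h⟩ := Pool.Agent.Y747.Ld.full RH (1 / 2) (by norm_num)
  refine ⟨c, hc, m₀, hm₀, fun N hN m hm => ?_⟩
  refine le_trans ?_ (h N hN m hm)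
  have hfin : {n : ℕ | 1 ≤ n ∧ n ≤ N ∧ ∃ j : ℕ, 1 ≤ j ∧ (m : ℝ) ≤ |(j : ℝ) - n| ∧
      1 / 2 * |(j : ℝ) - n| ≤ |γt j - γt n - ((j : ℝ) - n)|}.Finite :=
    (Set.finite_Icc 1 N).subset fun n hn => ⟨hn.1, hn.2.1⟩
  have hsub : {n : ℕ | 1 ≤ n ∧ n ≤ N ∧ ∃ k : ℕ, m ≤ k ∧ 1 / 2 * (k : ℝ) ≤
      |Pool.Agent.Y748.nrm (SG.ord (n + k)) - Pool.Agent.Y748.nrm (SG.ord n) - k|} ⊆
      {n : ℕ | 1 ≤ n ∧ n ≤ N ∧ ∃ j : ℕ, 1 ≤ j ∧ (m : ℝ) ≤ |(j : ℝ) - n| ∧
        1 / 2 * |(j : ℝ) - n| ≤ |γt j - γt n - ((j : ℝ) - n)|} := by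
    rintro n ⟨a1, a2, k, a3, a4⟩
    have e : ((n + k : ℕ) : ℝ) - n = k := by push_cast; ring
    refine ⟨a1, a2, n + k, by omega, ?_, ?_⟩
    · rw [e, abs_of_nonneg (Nat.cast_nonneg k)]
      exact_mod_cast a3
    · rw [e, abs_of_nonneg (Nat.cast_nonneg k)]
      exact a4
  exact_mod_cast Set.ncard_le_ncard hsub hfin

open Pool.Agent.Y748.SR in
lemma hyps (hSQ : S_SQZ) (hMG : S_MG) (hMB : S_MB) (RH : RiemannHypothesis) :
    Sq (fun n => Pool.Agent.Y748.nrm (SG.ord n)) ∧ Mg (fun n => Pool.Agent.Y748.nrm (SG.ord n)) ∧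
      MB (fun n => Pool.Agent.Y748.nrm (SG.ord n)) := by
  have hsq := hSQ RH Pool.Agent.Y971.SR.t_LOW
  exact ⟨hsq, hMG _ _ (blk RH hsq), hMB _ hsq (ldh RH)⟩

open Pool.Agent.Y748.SR in
lemma gaudin_of (hCO : S_CO) {ι : Type} {l : Filter ι} {N : ι → ℕ} (hN : Tendsto N l atTop)
    (hsq : Sq fun n => Pool.Agent.Y748.nrm (SG.ord n)) (h : GUE l N) : Gaudin l N := by
  intro a b ha hab
  refine gaps hsq (l := l) (N := N) ⟨hN, fun k a b => ?_⟩ a b ha hab
  have h1 := h k a b
  have e : (∫ x in box a b, sine x) = ∫ x in Set.Icc a b, sdet x := int_Icc a b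
  rw [e] at h1
  exact h1.congr fun j => (hCO _ hsq k (N j) a b).symm

open Pool.Agent.Y748.SR in
/-- the theorem from its steps -/
theorem final (hSQ : S_SQZ) (hMG : S_MG) (hMB : S_MB) (h : P4) (RH : RiemannHypothesis) :
    (∀ (ι : Type) (l : Filter ι) (N : ι → ℕ), l.NeBot → Tendsto N l atTop →
      ∀ m : ∀ k : ℕ, (Fin k → ℝ) → (Fin k → ℝ) → ℝ, IsLimit l N m → SRayleigh m →
        (∀ k a b, Disj a b → m k a b = ∫ x in box a b, sine x) ∧ GUE l N ∧ Gaudin l N) ∧
    (∀ N : ℕ → ℕ, Tendsto N atTop atTop → ∃ φ : ℕ → ℕ, StrictMono φ ∧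
      ∃ m : ∀ k : ℕ, (Fin k → ℝ) → (Fin k → ℝ) → ℝ, IsLimit atTop (fun j => N (φ j)) m) ∧
    (GUE atTop (fun N : ℕ => N) ↔ ∀ N : ℕ → ℕ, Tendsto N atTop atTop →
      ∀ m : ∀ k : ℕ, (Fin k → ℝ) → (Fin k → ℝ) → ℝ, IsLimit atTop N m → SRayleigh m) ∧
    (GUE atTop (fun N : ℕ => N) → Gaudin atTop fun N : ℕ => N) := by
  obtain ⟨hsq, hmg, hmb⟩ := hyps hSQ hMG hMB RH
  refine ⟨?_, ?_, ?_, fun hG => gaudin_of h.CO tendsto_id hsq hG⟩
  · intro ι l N hl hN m hm hSR
    have H : IsLim l (fun n => Pool.Agent.Y748.nrm (SG.ord n)) N m := ⟨hN, hm⟩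
    obtain ⟨h1, h2⟩ := main4 h hsq hmg hmb hl H hSR
    have hG : GUE l N := by
      intro k a b
      have e : (∫ x in box a b, sine x) = ∫ x in Set.Icc a b, sdet x := int_Icc a b
      rw [e]
      exact (h2 k a b).congr fun j => h.CO _ hsq k (N j) a b
    exact ⟨h1, hG, gaudin_of h.CO hN hsq hG⟩
  · intro N hN
    obtain ⟨φ, hφ, m, H⟩ := h.COMP _ hsq hmb N hN
    exact ⟨φ, hφ, m, H.lim⟩
  · have h1 := iff4 h hsq hmg hmb
    constructor
    · intro hG N hN m hm
      refine h1.mp (fun k a b => ?_) N m ⟨hN, hm⟩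
      have := hG k a b
      have e : (∫ x in box a b, sine x) = ∫ x in Set.Icc a b, sdet x := int_Icc a b
      rw [e] at this
      exact this
    · intro hSR k a b
      have := h1.mpr (fun N m H => hSR N H.tend m H.lim) k a b
      have e : (∫ x in box a b, sine x) = ∫ x in Set.Icc a b, sdet x := int_Icc a b
      rw [e]
      exact this

/-- On the Riemann hypothesis: a strongly Rayleigh limit point of the zeros, along any heights, is
the sine process, and there all correlations converge and the normalised gaps have the Gaudin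
distribution; every sequence of heights has a subsequence with a limit point; and the GUE
hypothesis holds if and only if all limit points are strongly Rayleigh. -/
theorem result (RH : RiemannHypothesis) :
    (∀ (ι : Type) (l : Filter ι) (N : ι → ℕ), l.NeBot → Tendsto N l atTop →
      ∀ m : ∀ k : ℕ, (Fin k → ℝ) → (Fin k → ℝ) → ℝ, IsLimit l N m → SRayleigh m →
        (∀ k a b, Disj a b → m k a b = ∫ x in box a b, sine x) ∧ GUE l N ∧ Gaudin l N) ∧
    (∀ N : ℕ → ℕ, Tendsto N atTop atTop → ∃ φ : ℕ → ℕ, StrictMono φ ∧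
      ∃ m : ∀ k : ℕ, (Fin k → ℝ) → (Fin k → ℝ) → ℝ, IsLimit atTop (fun j => N (φ j)) m) ∧
    (GUE atTop (fun N : ℕ => N) ↔ ∀ N : ℕ → ℕ, Tendsto N atTop atTop →
      ∀ m : ∀ k : ℕ, (Fin k → ℝ) → (Fin k → ℝ) → ℝ, IsLimit atTop N m → SRayleigh m) ∧
    (GUE atTop (fun N : ℕ => N) → Gaudin atTop fun N : ℕ => N) :=
  final Pool.Agent.Y748.SR.a_SQZ Pool.Agent.Y748.SR.a_MG Pool.Agent.Y748.SR.a_MB
    (Pool.Agent.Y748.SR.p4 (Pool.Agent.Y51.SR4.t_ALLB Pool.Agent.Y748.SR.a_CO)) RH

end Pool.Agent.Results.MP_21f43f_nt.StronglyRayleigh
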